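import Mathlib

/-!
MP_a217f7_co.  Crowns in a relation, and the shortest chain lemma.
-/

set_option autoImplicit false

namespace Pool.Agent.CrownF

variable {α β : Type}

/-- The relation contains an induced alternating cycle of length at least six. -/
def RelCrown (R : α → β → Prop) : Prop :=
  ∃ (n : ℕ) (x : Fin (n + 3) → α) (y : Fin (n + 3) → β),
    ∀ i j, R (x i) (y j) ↔ (j = i ∨ j = i + 1)

/-- A chain of `m` edges `f 0, ..., f (m-1)` with connectors `c i` outside `E`, from a point `s` of
`E` which lies in `f 0` only to a point `t` of `E` which lies in `f (m-1)` only. -/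
def Bad (R : α → β → Prop) (E : β) (m : ℕ) : Prop :=
  ∃ (f : ℕ → β) (c : ℕ → α) (s t : α), R s E ∧ R t E ∧
    (∀ i, i + 1 < m → ¬ R (c i) E ∧ R (c i) (f i) ∧ R (c i) (f (i + 1))) ∧
    (∀ i, i < m → (R s (f i) ↔ i = 0)) ∧ (∀ i, i < m → (R t (f i) ↔ i + 1 = m))

/-- Shortcut of a chain. -/
lemma bad_shortcut {R : α → β → Prop} {E : β} {m : ℕ} {f : ℕ → β} {c : ℕ → α} {s t : α}
    (hs : R s E) (ht : R t E)
    (hc : ∀ i, i + 1 < m → ¬ R (c i) E ∧ R (c i) (f i) ∧ R (c i) (f (i + 1)))
    (hsf : ∀ i, i < m → (R s (f i) ↔ i = 0)) (htf : ∀ i, i < m → (R t (f i) ↔ i + 1 = m))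
    {p q : ℕ} {v : α} (hpq : p + 1 < q) (hq : q < m) (hvE : ¬ R v E) (hvp : R v (f p))
    (hvq : R v (f q)) : ∃ m', 2 ≤ m' ∧ m' < m ∧ Bad R E m' := by
  refine ⟨m - (q - p - 1), by omega, by omega, ?_⟩
  refine ⟨fun l => if l ≤ p then f l else f (l + (q - p - 1)),
    fun l => if l < p then c l else if l = p then v else c (l + (q - p - 1)), s, t, hs, ht,
    ?_, ?_, ?_⟩
  · intro i hi
    by_cases h1 : i < p
    · have e1 : i ≤ p := h1.le
      have e2 : i + 1 ≤ p := h1
      simp only [h1, e1, e2, if_true]
      exact hc i (by omega)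
    · by_cases h2 : i = p
      · have e0 : i + 1 + (q - p - 1) = q := by omega
        simp only [h2, lt_irrefl, if_false, if_true, le_refl]
        have e3 : ¬ p + 1 ≤ p := by omega
        simp only [e3, if_false]
        have e4 : p + 1 + (q - p - 1) = q := by omega
        rw [e4]
        exact ⟨hvE, hvp, hvq⟩
      · have e1 : ¬ i ≤ p := by omega
        have e2 : ¬ i + 1 ≤ p := by omega
        simp only [h1, h2, e1, e2, if_false]
        have e3 : i + 1 + (q - p - 1) = i + (q - p - 1) + 1 := by omega
        rw [e3]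
        exact hc (i + (q - p - 1)) (by omega)
  · intro i hi
    by_cases h1 : i ≤ p
    · simp only [h1, if_true]
      exact hsf i (by omega)
    · simp only [h1, if_false]
      rw [hsf _ (by omega)]
      omega
  · intro i hi
    by_cases h1 : i ≤ p
    · simp only [h1, if_true]
      rw [htf _ (by omega)]
      omega
    · simp only [h1, if_false]
      rw [htf _ (by omega)]
      omega

/-- Without crowns there is no chain of two or more edges. -/
theorem not_bad {R : α → β → Prop} (hR : ¬ RelCrown R) {E : β} {m : ℕ} (hm : 2 ≤ m) :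
    ¬ Bad R E m := by
  classical
  intro hbad
  have hex : ∃ m, 2 ≤ m ∧ Bad R E m := ⟨m, hm, hbad⟩
  obtain ⟨hm2, f, c, s, t, hs, ht, hc, hsf, htf⟩ := Nat.find_spec hex
  set m0 := Nat.find hex with hm0
  have hmin : ∀ m', 2 ≤ m' → m' < m0 → ¬ Bad R E m' := by
    intro m' h1 h2 h3
    exact Nat.find_min hex h2 ⟨h1, h3⟩
  -- connectors meet only their two edges
  have hcon : ∀ i j, i + 1 < m0 → j < m0 → (R (c i) (f j) ↔ (j = i ∨ j = i + 1)) := by
    intro i j hi hj
    constructor
    · intro h
      by_contra hne
      push Not at hne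
      obtain ⟨h1, h2⟩ := hne
      rcases lt_or_ge i j with hij | hij
      · obtain ⟨m', h3, h4, h5⟩ := bad_shortcut hs ht hc hsf htf (p := i) (q := j) (v := c i)
          (by omega) hj (hc i hi).1 (hc i hi).2.1 h
        exact hmin m' h3 h4 h5
      · obtain ⟨m', h3, h4, h5⟩ := bad_shortcut hs ht hc hsf htf (p := j) (q := i + 1) (v := c i)
          (by omega) hi (hc i hi).1 h (hc i hi).2.2
        exact hmin m' h3 h4 h5
    · rintro (rfl | rfl)
      · exact (hc _ hi).2.1
      · exact (hc _ hi).2.2
  apply hR
  obtain ⟨n, hn⟩ : ∃ n, m0 = n + 2 := ⟨m0 - 2, by omega⟩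
  refine ⟨n, fun i => if (i : ℕ) = 0 then s else if (i : ℕ) = m0 then t else c (i - 1),
    fun j => if (j : ℕ) = 0 then E else f (j - 1), ?_⟩
  intro i j
  have hi := i.2
  have hj := j.2
  -- translate the right side to natural numbers
  have key : (j = i ∨ j = i + 1) ↔
      ((j : ℕ) = i ∨ (j : ℕ) = (if (i : ℕ) = n + 2 then 0 else (i : ℕ) + 1)) := by
    have e1 : ((i + 1 : Fin (n + 3)) : ℕ) = if (i : ℕ) = n + 2 then 0 else (i : ℕ) + 1 := by
      rw [Fin.val_add_one]
      have : (i = Fin.last (n + 2)) ↔ (i : ℕ) = n + 2 := by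
        rw [Fin.ext_iff]; rfl
      simp only [this]
    rw [Fin.ext_iff, Fin.ext_iff, e1]
  rw [key]
  by_cases hi0 : (i : ℕ) = 0
  · by_cases hj0 : (j : ℕ) = 0
    · simp [hi0, hj0, hs]
    · have h2 : ¬ (0 = n + 2) := by omega
      simp only [hi0, hj0, if_true, if_false, h2, false_or]
      rw [hsf _ (by omega)]
      omega
  · by_cases him : (i : ℕ) = m0
    · have hi2 : (i : ℕ) = n + 2 := by omega
      by_cases hj0 : (j : ℕ) = 0
      · have h2 : ¬ (m0 = 0) := by omega
        simp [him, hj0, hn, ht]
      · have h2 : ¬ (m0 = 0) := by omega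
        simp only [him, h2, hj0, if_true, if_false]
        rw [htf _ (by omega)]
        have h5 : m0 = n + 2 := hn
        simp only [h5, if_true]
        constructor
        · intro h
          left; omega
        · rintro (h | h)
          · omega
          · exact absurd h hj0
    · have h3 : ¬ ((i : ℕ) = n + 2) := by omega
      by_cases hj0 : (j : ℕ) = 0
      · simp only [hi0, him, hj0, if_true, if_false, h3]
        constructor
        · intro h
          exact absurd h (hc _ (by omega)).1
        · intro h
          omega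
      · simp only [hi0, him, hj0, if_false, h3]
        rw [hcon _ _ (by omega) (by omega)]
        constructor
        · rintro (h | h)
          · left; omega
          · right; omega
        · rintro (h | h)
          · left; omega
          · right; omega

end Pool.Agent.CrownF
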