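import Pool.Agent.CrownF.Tight

/-!
MP_a217f7_co.  Classes of posets without crowns, and lexicographic sums.
-/

set_option autoImplicit false

namespace Pool.Agent.CrownF

/-- Interval dimension at most two: `p` is represented by the two intervals `[a p, b p]` and
`[c p, e p]`, and `p < q` if and only if both intervals of `p` lie completely before those of `q`.
The choice `a = b`, `c = e` gives the posets of dimension at most two, the choice `a = c`, `b = e`
gives the interval orders. -/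
def IntervalDimTwo (P : Type) [PartialOrder P] : Prop :=
  ∃ a b c e : P → ℝ, (∀ p, a p ≤ b p ∧ c p ≤ e p) ∧ ∀ p q, p < q ↔ (b p < a q ∧ e p < c q)

theorem fin_add_one (n : ℕ) (j : Fin (n + 3)) : ((j + 1 : Fin (n + 3)) : ℕ) =
    if (j : ℕ) = n + 2 then 0 else (j : ℕ) + 1 := by
  rw [Fin.val_add_one]
  have : (j = Fin.last (n + 2)) ↔ (j : ℕ) = n + 2 := by
    rw [Fin.ext_iff]; rfl
  simp only [this]

theorem no_crown_of_intervalDimTwo (P : Type) [PartialOrder P] (h : IntervalDimTwo P) :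
    ¬ HasCrown P := by
  rintro ⟨n, x, y, hxy, -, -, hyx⟩
  obtain ⟨a, b, c, e, hle, hlt⟩ := h
  have hxy' : ∀ i j, x i < y j ↔ (j = i ∨ j = i + 1) := by
    intro i j
    rw [← hxy]
    constructor
    · intro h; exact h.le
    · intro h
      refine lt_of_le_of_ne h ?_
      intro h2
      exact hyx j i h2.ge
  obtain ⟨j, hj⟩ := Finite.exists_min (fun j => a (y j))
  obtain ⟨i, hi⟩ := Finite.exists_max (fun i => e (x i))
  have key : ∀ k l, x k < y j → x i < y l → x k < y l := by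
    intro k l h1 h2
    rw [hlt] at h1 h2 ⊢
    exact ⟨h1.1.trans_le (hj l), (hi k).trans_lt h2.2⟩
  obtain ⟨k, hk⟩ : ∃ k : Fin (n + 3), k + 1 = j := ⟨j - 1, sub_add_cancel j 1⟩
  have h1 : x j < y j := (hxy' j j).2 (Or.inl rfl)
  have h2 : x k < y j := (hxy' k j).2 (Or.inr hk.symm)
  have h3 : x i < y i := (hxy' i i).2 (Or.inl rfl)
  have h4 : x i < y (i + 1) := (hxy' i (i + 1)).2 (Or.inr rfl)
  have k1 := (hxy' _ _).1 (key j i h1 h3)
  have k2 := (hxy' _ _).1 (key j (i + 1) h1 h4)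
  have k3 := (hxy' _ _).1 (key k i h2 h3)
  have k4 := (hxy' _ _).1 (key k (i + 1) h2 h4)
  have ei := fin_add_one n i
  have ej := fin_add_one n j
  have ek := fin_add_one n k
  rw [hk] at ek k3 k4
  simp only [Fin.ext_iff] at k1 k2 k3 k4
  rw [ei, ej] at k2
  rw [ej] at k1
  rw [ei] at k4
  have := i.2
  have := j.2
  have := k.2
  split_ifs at * <;> omega

theorem lex_lt {Q : Type} [PartialOrder Q] {P : Q → Type} [∀ q, PartialOrder (P q)]
    {q r : Q} {a : P q} {b : P r} :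
    ((toLex (⟨q, a⟩ : Σ q, P q) : Σₗ q, P q) < toLex ⟨r, b⟩) ↔
      (q < r ∨ ∃ h : q = r, h ▸ a < b) := Sigma.Lex.lt_def

theorem lex_le {Q : Type} [PartialOrder Q] {P : Q → Type} [∀ q, PartialOrder (P q)]
    {q r : Q} {a : P q} {b : P r} :
    ((toLex (⟨q, a⟩ : Σ q, P q) : Σₗ q, P q) ≤ toLex ⟨r, b⟩) ↔
      (q < r ∨ ∃ h : q = r, h ▸ a ≤ b) := Sigma.Lex.le_def

/-- Lexicographic sums of posets with tight cuts have tight cuts. -/
theorem tight_lex (Q : Type) [Fintype Q] [PartialOrder Q] (P : Q → Type) [∀ q, Fintype (P q)]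
    [∀ q, Nonempty (P q)] [∀ q, PartialOrder (P q)] (hQ : TightCuts Q)
    (hP : ∀ q, TightCuts (P q)) : TightCuts (Σₗ q, P q) := by
  classical
  intro X hX hXne hXu
  by_cases hsplit : ∃ q, (∃ a : P q, toLex (⟨q, a⟩ : Σ q, P q) ∈ X) ∧
      (∃ b : P q, toLex (⟨q, b⟩ : Σ q, P q) ∉ X)
  · obtain ⟨q, ⟨a, ha⟩, ⟨b, hb⟩⟩ := hsplit
    obtain ⟨x, hx, y, hy, hxy⟩ := hP q {p | toLex (⟨q, p⟩ : Σ q, P q) ∈ X}
      (by
        intro p p' hpp' hp
        exact hX (lex_le.2 (Or.inr ⟨rfl, hpp'⟩)) hp)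
      ⟨a, ha⟩
      (by
        intro h
        have : b ∈ {p | toLex (⟨q, p⟩ : Σ q, P q) ∈ X} := by rw [h]; trivial
        exact hb this)
    refine ⟨toLex ⟨q, x⟩, hx, toLex ⟨q, y⟩, hy, ?_⟩
    rintro ⟨dq, dp⟩ hd ⟨uq, up⟩ hu
    have hd := lex_lt.1 hd
    have hu := lex_lt.1 hu
    refine lex_lt.2 ?_
    rcases hd with hd | ⟨hd, hd'⟩
    · rcases hu with hu | ⟨hu, hu'⟩
      · exact Or.inl (hd.trans hu)
      · exact Or.inl (hd.trans_eq hu)
    · rcases hu with hu | ⟨hu, hu'⟩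
      · exact Or.inl (lt_of_eq_of_lt hd hu)
      · right
        subst hd
        subst hu
        exact ⟨rfl, hxy dp hd' up hu'⟩
  · push Not at hsplit
    obtain ⟨⟨q₀, a₀⟩, h₀⟩ := hXne
    obtain ⟨⟨q₁, a₁⟩, h₁⟩ : ∃ z, z ∉ X := by
      by_contra h
      push Not at h
      exact hXu (Set.eq_univ_of_forall h)
    obtain ⟨q, hq, r, hr, hqr⟩ := hQ {q | ∃ a : P q, toLex (⟨q, a⟩ : Σ q, P q) ∈ X}
      (by
        rintro q r hrq ⟨a, ha⟩
        rcases hrq.eq_or_lt with rfl | hlt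
        · exact ⟨a, ha⟩
        · obtain ⟨b⟩ := ‹∀ q, Nonempty (P q)› r
          exact ⟨b, hX (lex_le.2 (Or.inl hlt)) ha⟩)
      ⟨q₀, a₀, h₀⟩
      (by
        intro h
        have : q₁ ∈ {q | ∃ a : P q, toLex (⟨q, a⟩ : Σ q, P q) ∈ X} := by rw [h]; trivial
        obtain ⟨a, ha⟩ := this
        exact h₁ (hsplit q₁ ⟨a, ha⟩ a₁))
    obtain ⟨a, ha⟩ := hq
    obtain ⟨x, -, hx⟩ := (Set.toFinite (Set.univ : Set (P q))).exists_le_maximal
      (Set.mem_univ a)
    obtain ⟨y, -, hy⟩ := (Set.toFinite (Set.univ : Set (P r))).exists_le_minimal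
      (Set.mem_univ (Classical.arbitrary (P r)))
    refine ⟨toLex ⟨q, x⟩, hsplit q ⟨a, ha⟩ x, toLex ⟨r, y⟩, fun h => hr ⟨y, h⟩, ?_⟩
    rintro ⟨dq, dp⟩ hd ⟨uq, up⟩ hu
    have hd := lex_lt.1 hd
    have hu := lex_lt.1 hu
    refine lex_lt.2 (Or.inl ?_)
    have h1 : dq < r := by
      rcases hd with hd | ⟨hd, hd'⟩
      · exact hd
      · exfalso
        subst hd
        have := hy.2 (Set.mem_univ dp) hd'.le
        exact absurd hd' (not_lt_of_ge this)
    have h2 : q < uq := by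
      rcases hu with hu | ⟨hu, hu'⟩
      · exact hu
      · exfalso
        subst hu
        have := hx.2 (Set.mem_univ up) hu'.le
        exact absurd hu' (not_lt_of_ge this)
    exact hqr dq h1 uq h2

end Pool.Agent.CrownF
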