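import Pool.Agent.CrownF.Chain

/-!
MP_a217f7_co.  A relation without crowns has a nest point outside every given edge (Brouwer and
Kolen), and therefore a pair `x, y` whose neighbourhoods are completely related.
-/

set_option autoImplicit false

namespace Pool.Agent.CrownF

variable {α β : Type}

/-- One step between edges of `F` through a point of `V` outside `E`. -/
def Stp (R : α → β → Prop) (V : Finset α) (F : Finset β) (E : β) (e e' : β) : Prop :=
  e' ∈ F ∧ ∃ c ∈ V, ¬ R c E ∧ R c e ∧ R c e'

open Relation

/-- Among connected edges, the edge with the largest trace on `E` contains all the traces. -/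
lemma trace_max {R : α → β → Prop} (hR : ¬ RelCrown R) {V : Finset α} {F : Finset β} {E : β}
    {es g : β}
    (hmax : ∀ e, ReflTransGen (Stp R V F E) es e →
      ∀ (t : α), t ∈ V → R t E → R t e → (∀ w ∈ V, R w E → R w es → R w e) → R t es)
    (hg : ReflTransGen (Stp R V F E) es g) {t : α} (htV : t ∈ V) (htE : R t E) (htg : R t g) :
    R t es := by
  classical
  by_contra hnt
  -- the first edge which contains t
  have h1 : ∀ e, ReflTransGen (Stp R V F E) es e →
      (∃ g', R t g' ∧ ReflTransGen (fun a b => Stp R V F E a b ∧ ¬ R t a) es g') ∨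
      (¬ R t e ∧ ReflTransGen (fun a b => Stp R V F E a b ∧ ¬ R t a) es e) := by
    intro e he
    induction he with
    | refl => exact Or.inr ⟨hnt, ReflTransGen.refl⟩
    | tail _ hbc ih =>
      rename_i b c _
      rcases ih with ih | ⟨ih1, ih2⟩
      · exact Or.inl ih
      · have h2 : ReflTransGen (fun a b => Stp R V F E a b ∧ ¬ R t a) es c :=
          ih2.tail ⟨hbc, ih1⟩
        by_cases h3 : R t c
        · exact Or.inl ⟨c, h3, h2⟩
        · exact Or.inr ⟨h3, h2⟩
  obtain ⟨g', htg', hpath⟩ : ∃ g', R t g' ∧
      ReflTransGen (fun a b => Stp R V F E a b ∧ ¬ R t a) es g' := by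
    rcases h1 g hg with h | ⟨h, _⟩
    · exact h
    · exact absurd htg h
  have hle : (fun a b => Stp R V F E a b ∧ ¬ R t a) ≤ Stp R V F E := fun _ _ h => h.1
  have hpath0 : ReflTransGen (Stp R V F E) es g' := ReflTransGen.mono hle es g' hpath
  -- tails
  have key : ∀ e, ReflTransGen (fun a b => Stp R V F E a b ∧ ¬ R t a) e g' →
      ∃ (n : ℕ) (f : ℕ → β) (c : ℕ → α), f 0 = e ∧ f n = g' ∧
        (∀ i, i < n → ¬ R (c i) E ∧ R (c i) (f i) ∧ R (c i) (f (i + 1))) ∧
        (∀ i, i < n → ¬ R t (f i)) ∧
        (∀ i, i ≤ n → ∀ w ∈ V, R w E → R w (f i) → R w g') := by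
    intro e he
    induction he using ReflTransGen.head_induction_on with
    | refl =>
      refine ⟨0, fun _ => g', fun _ => t, rfl, rfl, by intro i hi; omega, by intro i hi; omega,
        ?_⟩
      intro i _ w _ _ h
      exact h
    | head hac _ ih =>
      rename_i a c' _
      obtain ⟨n, f, c, hf0, hfn, hcon, ht, htr⟩ := ih
      obtain ⟨⟨hcF, v, hvV, hvE, hva, hvc⟩, hta⟩ := hac
      by_cases htra : ∀ w ∈ V, R w E → R w a → R w g'
      · refine ⟨n + 1, fun i => if i = 0 then a else f (i - 1),
          fun i => if i = 0 then v else c (i - 1), by simp, by simp [hfn], ?_, ?_, ?_⟩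
        · intro i hi
          rcases Nat.eq_zero_or_pos i with rfl | hpos
          · simp only [if_true]
            have : ¬ (0 + 1 = 0) := by omega
            simp only [this, if_false, Nat.add_sub_cancel]
            refine ⟨hvE, hva, ?_⟩
            rw [hf0]; exact hvc
          · have e1 : ¬ i = 0 := by omega
            have e2 : ¬ i + 1 = 0 := by omega
            simp only [e1, e2, if_false]
            have := hcon (i - 1) (by omega)
            have e3 : i + 1 - 1 = i - 1 + 1 := by omega
            rw [e3]
            exact this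
        · intro i hi
          rcases Nat.eq_zero_or_pos i with rfl | hpos
          · simpa using hta
          · have e1 : ¬ i = 0 := by omega
            simp only [e1, if_false]
            exact ht _ (by omega)
        · intro i hi w hw hwE h
          rcases Nat.eq_zero_or_pos i with rfl | hpos
          · simp only [if_true] at h
            exact htra w hw hwE h
          · have e1 : ¬ i = 0 := by omega
            simp only [e1, if_false] at h
            exact htr _ (by omega) w hw hwE h
      · exfalso
        push Not at htra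
        obtain ⟨s, hsV, hsE, hsa, hsg⟩ := htra
        apply not_bad hR (E := E) (m := n + 2) (by omega)
        refine ⟨fun i => if i = 0 then a else f (i - 1),
          fun i => if i = 0 then v else c (i - 1), s, t, hsE, htE, ?_, ?_, ?_⟩
        · intro i hi
          rcases Nat.eq_zero_or_pos i with rfl | hpos
          · simp only [if_true]
            have : ¬ (0 + 1 = 0) := by omega
            simp only [this, if_false, Nat.add_sub_cancel]
            refine ⟨hvE, hva, ?_⟩
            rw [hf0]; exact hvc
          · have e1 : ¬ i = 0 := by omega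
            have e2 : ¬ i + 1 = 0 := by omega
            simp only [e1, e2, if_false]
            have := hcon (i - 1) (by omega)
            have e3 : i + 1 - 1 = i - 1 + 1 := by omega
            rw [e3]
            exact this
        · intro i hi
          rcases Nat.eq_zero_or_pos i with rfl | hpos
          · simpa using hsa
          · have e1 : ¬ i = 0 := by omega
            simp only [e1, if_false]
            constructor
            · intro h
              exact absurd (htr _ (by omega) s hsV hsE h) hsg
            · intro h; exact h.elim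
        · intro i hi
          rcases Nat.eq_zero_or_pos i with rfl | hpos
          · simp only [if_true]
            constructor
            · intro h; exact absurd h hta
            · intro h; omega
          · have e1 : ¬ i = 0 := by omega
            simp only [e1, if_false]
            constructor
            · intro h
              by_contra hne
              exact ht (i - 1) (by omega) h
            · intro h
              have : i - 1 = n := by omega
              rw [this, hfn]; exact htg'
  obtain ⟨n, f, c, hf0, hfn, _, _, htr⟩ := key es hpath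
  apply hnt
  apply hmax g' hpath0 t htV htE htg'
  intro w hw hwE hwes
  apply htr 0 (by omega) w hw hwE
  rw [hf0]; exact hwes

/-- A point of `V` outside `E` whose edges in `F` have traces on `V` which form a chain. -/
theorem exists_nest {R : α → β → Prop} (hR : ¬ RelCrown R) :
    ∀ (n : ℕ) (V : Finset α) (F : Finset β) (E : β), F.card = n →
      (∃ v ∈ V, ¬ R v E) →
      ∃ v ∈ V, ¬ R v E ∧ ∀ e ∈ F, ∀ g ∈ F, R v e → R v g →
        (∀ w ∈ V, R w e → R w g) ∨ (∀ w ∈ V, R w g → R w e) := by
  classical
  intro n
  induction n using Nat.strong_induction_on with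
  | _ n ih =>
  intro V F E hF hv
  obtain ⟨v₀, hv₀, hv₀E⟩ := hv
  by_cases hno : ∀ e ∈ F, ¬ R v₀ e
  · exact ⟨v₀, hv₀, hv₀E, fun e he g _ h => absurd h (hno e he)⟩
  push Not at hno
  obtain ⟨e₀, he₀F, he₀⟩ := hno
  -- edges connected with e₀ outside E
  set K : Finset β := F.filter (fun e => ReflTransGen (Stp R V F E) e₀ e) with hK
  have hsymm : ∀ a b, a ∈ F → Stp R V F E a b → Stp R V F E b a := by
    rintro a b ha ⟨_, c, hc, hcE, h1, h2⟩
    exact ⟨ha, c, hc, hcE, h2, h1⟩
  have hmemF : ∀ e, ReflTransGen (Stp R V F E) e₀ e → e ∈ F := by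
    intro e he
    induction he with
    | refl => exact he₀F
    | tail _ h _ => exact h.1
  have hback : ∀ e, ReflTransGen (Stp R V F E) e₀ e → ReflTransGen (Stp R V F E) e e₀ := by
    intro e he
    induction he with
    | refl => exact ReflTransGen.refl
    | tail h1 h2 ih' =>
      exact ReflTransGen.head (hsymm _ _ (hmemF _ h1) h2) ih'
  have he₀K : e₀ ∈ K := by
    rw [hK, Finset.mem_filter]; exact ⟨he₀F, ReflTransGen.refl⟩
  have hKne : K.Nonempty := ⟨e₀, he₀K⟩
  obtain ⟨es, hesK, hesmax⟩ := Finset.exists_max_image K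
    (fun e => (V.filter (fun w => R w E ∧ R w e)).card) hKne
  have hes : ReflTransGen (Stp R V F E) e₀ es := by
    rw [hK, Finset.mem_filter] at hesK; exact hesK.2
  have hconn : ∀ g ∈ K, ReflTransGen (Stp R V F E) es g := by
    intro g hg
    rw [hK, Finset.mem_filter] at hg
    exact (hback es hes).trans hg.2
  have hKtrans : ∀ g, ReflTransGen (Stp R V F E) es g → g ∈ K := by
    intro g hg
    rw [hK, Finset.mem_filter]
    have := hes.trans hg
    exact ⟨hmemF _ this, this⟩
  -- all traces on E are contained in the trace of es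
  have htrace : ∀ g ∈ K, ∀ t ∈ V, R t E → R t g → R t es := by
    intro g hg t htV htE htg
    refine trace_max hR ?_ (hconn g hg) htV htE htg
    intro e he t' ht'V ht'E ht'e hsub
    by_contra hne
    have h1 := hesmax e (hKtrans e he)
    have h2 : (V.filter (fun w => R w E ∧ R w es)).card
        < (V.filter (fun w => R w E ∧ R w e)).card := by
      apply Finset.card_lt_card
      rw [Finset.ssubset_iff_of_subset]
      · exact ⟨t', by simp [ht'V, ht'E, ht'e], by simp [hne]⟩
      · intro w hw
        rw [Finset.mem_filter] at hw ⊢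
        exact ⟨hw.1, hw.2.1, hsub w hw.1 hw.2.1 hw.2.2⟩
    exact absurd h2 (not_lt.mpr h1)
  -- the new vertex set
  set V' : Finset α := V.filter (fun v => (¬ R v E ∧ ∃ e ∈ K, R v e) ∨ (R v E ∧ R v es)) with hV'
  have hcloseK : ∀ v ∈ V, ¬ R v E → (∃ e ∈ K, R v e) → ∀ g ∈ F, R v g → g ∈ K := by
    rintro v hvV hvE ⟨e, heK, hve⟩ g hgF hvg
    rw [hK, Finset.mem_filter] at heK ⊢
    exact ⟨hgF, heK.2.tail ⟨hgF, v, hvV, hvE, hve, hvg⟩⟩
  have hKV' : ∀ g ∈ K, ∀ w ∈ V, R w g → w ∈ V' := by
    intro g hg w hwV hwg
    rw [hV', Finset.mem_filter]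
    refine ⟨hwV, ?_⟩
    by_cases hwE : R w E
    · exact Or.inr ⟨hwE, htrace g hg w hwV hwE hwg⟩
    · exact Or.inl ⟨hwE, g, hg, hwg⟩
  have hv₀V' : v₀ ∈ V' := hKV' e₀ he₀K v₀ hv₀ he₀
  have hcard : (K.erase es).card < n := by
    have h1 : (K.erase es).card < K.card := Finset.card_erase_lt_of_mem hesK
    have h2 : K.card ≤ F.card := Finset.card_le_card (Finset.filter_subset _ _)
    omega
  -- final step
  have hfin : ∀ v ∈ V', ¬ R v E → (∃ e ∈ K, R v e) →
      (∀ e ∈ K, ∀ g ∈ K, R v e → R v g →
        (∀ w ∈ V', R w e → R w g) ∨ (∀ w ∈ V', R w g → R w e)) →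
      ∃ v ∈ V, ¬ R v E ∧ ∀ e ∈ F, ∀ g ∈ F, R v e → R v g →
        (∀ w ∈ V, R w e → R w g) ∨ (∀ w ∈ V, R w g → R w e) := by
    intro v hvV' hvE hvK hchain
    have hvV : v ∈ V := (Finset.mem_filter.mp hvV').1
    refine ⟨v, hvV, hvE, ?_⟩
    intro e he g hg hve hvg
    have heK := hcloseK v hvV hvE hvK e he hve
    have hgK := hcloseK v hvV hvE hvK g hg hvg
    rcases hchain e heK g hgK hve hvg with h | h
    · left
      intro w hw hwe
      exact h w (hKV' e heK w hw hwe) hwe
    · right
      intro w hw hwg
      exact h w (hKV' g hgK w hw hwg) hwg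
  by_cases hcov : ∃ v ∈ V', ¬ R v es
  · obtain ⟨v, hvV', hves, hchain⟩ := ih _ hcard V' (K.erase es) es rfl hcov
    have hv' := (Finset.mem_filter.mp hvV').2
    have hv1 : ¬ R v E ∧ ∃ e ∈ K, R v e := by
      rcases hv' with h | h
      · exact h
      · exact absurd h.2 hves
    refine hfin v hvV' hv1.1 hv1.2 ?_
    intro e he g hg hve hvg
    refine hchain e ?_ g ?_ hve hvg
    · rw [Finset.mem_erase]; exact ⟨fun h => hves (h ▸ hve), he⟩
    · rw [Finset.mem_erase]; exact ⟨fun h => hves (h ▸ hvg), hg⟩
  · push Not at hcov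
    obtain ⟨v, hvV', hvE, hchain⟩ := ih _ hcard V' (K.erase es) E rfl ⟨v₀, hv₀V', hv₀E⟩
    have hv' := (Finset.mem_filter.mp hvV').2
    have hv1 : ∃ e ∈ K, R v e := by
      rcases hv' with h | h
      · exact h.2
      · exact absurd h.1 hvE
    refine hfin v hvV' hvE hv1 ?_
    intro e he g hg hve hvg
    by_cases h1 : e = es
    · right
      intro w hw _
      rw [h1]; exact hcov w hw
    · by_cases h2 : g = es
      · left
        intro w hw _
        rw [h2]; exact hcov w hw
      · exact hchain e (Finset.mem_erase.mpr ⟨h1, he⟩) g (Finset.mem_erase.mpr ⟨h2, hg⟩) hve hvg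

/-- A relation without crowns between two nonempty finite sets has a pair whose neighbourhoods are
completely related. -/
theorem exists_pair [Fintype α] [Fintype β] [Nonempty α] [Nonempty β] {R : α → β → Prop}
    (hR : ¬ RelCrown R) : ∃ x y, ∀ d u, R d y → R x u → R d u := by
  classical
  by_cases hall : ∀ x y, R x y
  · obtain ⟨x⟩ := ‹Nonempty α›
    obtain ⟨y⟩ := ‹Nonempty β›
    exact ⟨x, y, fun d u _ _ => hall d u⟩
  push Not at hall
  obtain ⟨x₀, y₀, h₀⟩ := hall
  obtain ⟨v, _, _, hchain⟩ := exists_nest hR _ Finset.univ Finset.univ y₀ rfl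
    ⟨x₀, Finset.mem_univ _, h₀⟩
  by_cases hno : ∀ u, ¬ R v u
  · exact ⟨v, y₀, fun d u _ h => absurd h (hno u)⟩
  push Not at hno
  obtain ⟨u₀, hu₀⟩ := hno
  obtain ⟨y, hy, hmin⟩ := Finset.exists_min_image (Finset.univ.filter (fun u => R v u))
    (fun u => (Finset.univ.filter (fun d => R d u)).card) ⟨u₀, by simp [hu₀]⟩
  have hvy : R v y := (Finset.mem_filter.mp hy).2
  refine ⟨v, y, ?_⟩
  intro d u hdy hvu
  rcases hchain y (Finset.mem_univ _) u (Finset.mem_univ _) hvy hvu with h | h
  · exact h d (Finset.mem_univ _) hdy
  · by_contra hdu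
    have h1 := hmin u (by simp [hvu])
    have h2 : (Finset.univ.filter (fun d => R d u)).card
        < (Finset.univ.filter (fun d => R d y)).card := by
      apply Finset.card_lt_card
      rw [Finset.ssubset_iff_of_subset]
      · exact ⟨d, by simp [hdy], by simp [hdu]⟩
      · intro w hw
        rw [Finset.mem_filter] at hw ⊢
        exact ⟨hw.1, h w (Finset.mem_univ _) hw.2⟩
    exact absurd h2 (not_lt.mpr h1)

end Pool.Agent.CrownF
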