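import Pool.Agent.Narrow.Extremal
import Pool.Agent.CrownF.Classes

/-!
MP_a217f7_co.  Two levels of `w` elements, all pairs comparable: the constant `1/4` cannot be
increased for posets of dimension two.
-/

set_option autoImplicit false

namespace Pool.Agent.CrownF

open Pool.Agent.Narrow Pool.Agent.FewCovers

/-- The poset with two levels of `w` elements, all pairs comparable. -/
@[reducible] def kww (w : ℕ) : PartialOrder (Fin w × Bool) := two w (eAll w)

theorem kww_lower (w : ℕ) (s : Set (Fin w × Bool)) :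
    @IsLowerSet (Fin w × Bool) (kww w).toLE s ↔
      ∀ i j : Fin w, (j, true) ∈ s → (i, false) ∈ s := by
  constructor
  · intro h i j hj
    exact h (a := (j, true)) (b := (i, false)) (Or.inr ⟨rfl, rfl, rfl⟩) hj
  · intro h a b hba ha
    rcases hba with rfl | ⟨h1, h2, h3⟩
    · exact ha
    · obtain ⟨b1, b2⟩ := b
      obtain ⟨a1, a2⟩ := a
      simp only at h1 h2 h3
      subst h1 h2
      exact h b1 a1 ha

/-- Sets without upper elements. -/
def lowS (w : ℕ) (A : Set (Fin w)) : Set (Fin w × Bool) := {p | p.2 = false ∧ p.1 ∈ A}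

/-- Sets with all lower elements. -/
def upS (w : ℕ) (B : Set (Fin w)) : Set (Fin w × Bool) := {p | p.2 = true → p.1 ∈ B}

theorem lowS_inj (w : ℕ) : Function.Injective (lowS w) := by
  intro A B h
  ext i
  have := Set.ext_iff.1 h (i, false)
  simpa [lowS] using this

theorem upS_inj (w : ℕ) : Function.Injective (upS w) := by
  intro A B h
  ext i
  have := Set.ext_iff.1 h (i, true)
  simpa [upS] using this

theorem lower_set_eq (w : ℕ) :
    {s : Set (Fin w × Bool) | @IsLowerSet (Fin w × Bool) (kww w).toLE s} =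
      Set.range (lowS w) ∪ Set.range (upS w) := by
  ext s
  simp only [Set.mem_ofPred_eq, Set.mem_union, Set.mem_range]
  rw [kww_lower]
  constructor
  · intro h
    by_cases hs : ∃ j : Fin w, (j, true) ∈ s
    · obtain ⟨j, hj⟩ := hs
      right
      refine ⟨{i | (i, true) ∈ s}, ?_⟩
      ext ⟨i, b⟩
      cases b with
      | false => simp [upS, h i j hj]
      | true => simp [upS]
    · push Not at hs
      left
      refine ⟨{i | (i, false) ∈ s}, ?_⟩
      ext ⟨i, b⟩
      cases b with
      | false => simp [lowS]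
      | true => simp [lowS, hs i]
  · rintro (⟨A, rfl⟩ | ⟨B, rfl⟩) i j hj
    · simp [lowS] at hj
    · simp [upS]

theorem inter_eq (w : ℕ) :
    Set.range (lowS w) ∩ Set.range (upS w) = {lowS w Set.univ} := by
  ext s
  simp only [Set.mem_inter_iff, Set.mem_range, Set.mem_singleton_iff]
  constructor
  · rintro ⟨⟨A, rfl⟩, ⟨B, hB⟩⟩
    congr 1
    ext i
    have := Set.ext_iff.1 hB (i, false)
    simpa [lowS, upS] using this
  · rintro rfl
    refine ⟨⟨_, rfl⟩, ⟨∅, ?_⟩⟩
    ext ⟨i, b⟩
    cases b <;> simp [lowS, upS]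

theorem ncard_univ_set (w : ℕ) : (Set.univ : Set (Set (Fin w))).ncard = 2 ^ w := by
  classical
  rw [Set.ncard_univ, Nat.card_eq_fintype_card, Fintype.card_set, Fintype.card_fin]

theorem count_all (w : ℕ) :
    Set.ncard {s : Set (Fin w × Bool) | @IsLowerSet (Fin w × Bool) (kww w).toLE s} + 1 =
      2 ^ w + 2 ^ w := by
  rw [lower_set_eq]
  have h := Set.ncard_union_add_ncard_inter (Set.range (lowS w)) (Set.range (upS w))
    (Set.toFinite _) (Set.toFinite _)
  rw [inter_eq w, Set.ncard_singleton] at h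
  rw [h, ← Set.image_univ, ← Set.image_univ, Set.ncard_image_of_injective _ (lowS_inj w),
    Set.ncard_image_of_injective _ (upS_inj w), ncard_univ_set]

theorem half (w : ℕ) (j : Fin w) : 2 * Set.ncard {B : Set (Fin w) | j ∈ B} = 2 ^ w := by
  have h1 : Set.ncard {B : Set (Fin w) | j ∈ B} = Set.ncard {B : Set (Fin w) | j ∉ B} := by
    have : {B : Set (Fin w) | j ∉ B} = compl '' {B : Set (Fin w) | j ∈ B} := by
      ext B
      simp only [Set.mem_ofPred_eq, Set.mem_image]
      constructor
      · intro h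
        exact ⟨Bᶜ, h, compl_compl B⟩
      · rintro ⟨C, hC, rfl⟩
        simpa using hC
    rw [this, Set.ncard_image_of_injective _ compl_injective]
  have h2 : {B : Set (Fin w) | j ∉ B} = {B : Set (Fin w) | j ∈ B}ᶜ := rfl
  have h3 := Set.ncard_add_ncard_compl {B : Set (Fin w) | j ∈ B}
  rw [← h2, ← h1, ← Set.ncard_univ, ncard_univ_set] at h3
  omega

theorem half' (w : ℕ) (j : Fin w) : 2 * Set.ncard {B : Set (Fin w) | j ∉ B} = 2 ^ w := by
  have h2 : {B : Set (Fin w) | j ∉ B} = {B : Set (Fin w) | j ∈ B}ᶜ := rfl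
  have h3 := Set.ncard_add_ncard_compl {B : Set (Fin w) | j ∈ B}
  rw [← h2, ← Set.ncard_univ, ncard_univ_set] at h3
  have := half w j
  omega

theorem count_top (w : ℕ) (j : Fin w) :
    2 * Set.ncard {s : Set (Fin w × Bool) | @IsLowerSet (Fin w × Bool) (kww w).toLE s ∧
      (j, true) ∈ s} = 2 ^ w := by
  have h : {s : Set (Fin w × Bool) | @IsLowerSet (Fin w × Bool) (kww w).toLE s ∧
      (j, true) ∈ s} = upS w '' {B | j ∈ B} := by
    ext s
    have h0 := Set.ext_iff.1 (lower_set_eq w) s
    simp only [Set.mem_ofPred_eq, Set.mem_union, Set.mem_range] at h0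
    simp only [Set.mem_ofPred_eq, Set.mem_image]
    rw [h0]
    constructor
    · rintro ⟨⟨A, rfl⟩ | ⟨B, rfl⟩, hj⟩
      · simp [lowS] at hj
      · exact ⟨B, by simpa [upS] using hj, rfl⟩
    · rintro ⟨B, hB, rfl⟩
      exact ⟨Or.inr ⟨B, rfl⟩, by simpa [upS] using hB⟩
  rw [h, Set.ncard_image_of_injective _ (upS_inj w), half]

theorem count_bot (w : ℕ) (i : Fin w) :
    2 * Set.ncard {s : Set (Fin w × Bool) | @IsLowerSet (Fin w × Bool) (kww w).toLE s ∧
      (i, false) ∉ s} = 2 ^ w := by
  have h : {s : Set (Fin w × Bool) | @IsLowerSet (Fin w × Bool) (kww w).toLE s ∧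
      (i, false) ∉ s} = lowS w '' {B | i ∉ B} := by
    ext s
    have h0 := Set.ext_iff.1 (lower_set_eq w) s
    simp only [Set.mem_ofPred_eq, Set.mem_union, Set.mem_range] at h0
    simp only [Set.mem_ofPred_eq, Set.mem_image]
    rw [h0]
    constructor
    · rintro ⟨⟨A, rfl⟩ | ⟨B, rfl⟩, hj⟩
      · exact ⟨A, by simpa [lowS] using hj, rfl⟩
      · simp [upS] at hj
    · rintro ⟨B, hB, rfl⟩
      exact ⟨Or.inl ⟨B, rfl⟩, by simpa [lowS] using hB⟩
  rw [h, Set.ncard_image_of_injective _ (lowS_inj w), half']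

/-- For every `w` there is a poset of dimension at most two with `N = 2 ^ (w + 2) - 1` ideals, in
which every element lies in `(N + 1)/4 = 2 ^ w` or in `(3 N - 1)/4 = 3 * 2 ^ w - 1` ideals. -/
theorem sharp (w : ℕ) :
    ∃ (P : Type) (_ : Fintype P) (_ : Nonempty P) (_ : PartialOrder P),
      (∃ f g : P → ℝ, ∀ p q : P, p < q ↔ (f p < f q ∧ g p < g q)) ∧
      Set.ncard {s : Set P | IsLowerSet s} = 2 ^ (w + 2) - 1 ∧
      ∀ x : P,
        Set.ncard {s : Set P | IsLowerSet s ∧ x ∈ s} = 2 ^ w ∨
        Set.ncard {s : Set P | IsLowerSet s ∧ x ∈ s} = 3 * 2 ^ w - 1 := by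
  set v := w + 1 with hv
  have hne : Nonempty (Fin v × Bool) := ⟨(⟨0, by omega⟩, true)⟩
  have e1 : 2 ^ v = 2 * 2 ^ w := by rw [hv, pow_succ]; ring
  have e2 : 2 ^ (w + 2) = 4 * 2 ^ w := by rw [pow_add]; ring
  have e3 : 1 ≤ 2 ^ w := Nat.one_le_two_pow
  have hN := count_all v
  refine ⟨Fin v × Bool, inferInstance, hne, kww v, ?_, ?_, ?_⟩
  · refine ⟨fun p => if p.2 = true then 2 * (v : ℝ) + (p.1 : ℕ) else ((p.1 : ℕ) : ℝ),
      fun p => if p.2 = true then 2 * (v : ℝ) - (p.1 : ℕ) else -((p.1 : ℕ) : ℝ), ?_⟩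
    rintro ⟨i, b⟩ ⟨j, c⟩
    have hi : ((i : ℕ) : ℝ) < v := by exact_mod_cast i.2
    have hj : ((j : ℕ) : ℝ) < v := by exact_mod_cast j.2
    have hi0 : (0 : ℝ) ≤ ((i : ℕ) : ℝ) := by positivity
    have hj0 : (0 : ℝ) ≤ ((j : ℕ) : ℝ) := by positivity
    have hlt : @LT.lt (Fin v × Bool) (kww v).toLT (i, b) (j, c) ↔ (b = false ∧ c = true) := by
      constructor
      · rintro ⟨h1, h2⟩
        rcases h1 with h1 | h1
        · exact absurd (Or.inl h1.symm) h2
        · exact ⟨h1.1, h1.2.1⟩
      · rintro ⟨rfl, rfl⟩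
        refine ⟨Or.inr ⟨rfl, rfl, rfl⟩, ?_⟩
        rintro (h | h)
        · simp at h
        · simp at h
    rw [hlt]
    cases b <;> cases c <;> simp only [if_true, if_false, Bool.false_eq_true, reduceCtorEq,
      and_true, and_false, true_iff, false_iff, not_and, not_lt]
    · intro h; linarith
    · constructor <;> linarith
    · intro h; linarith
    · intro h; linarith
  · omega
  · rintro ⟨i, b⟩
    cases b with
    | true =>
      left
      have h := count_top v i
      omega
    | false =>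
      right
      have h := count_bot v i
      have hsplit : Set.ncard {s : Set (Fin v × Bool) |
          @IsLowerSet (Fin v × Bool) (kww v).toLE s ∧ (i, false) ∈ s} +
          Set.ncard {s : Set (Fin v × Bool) |
            @IsLowerSet (Fin v × Bool) (kww v).toLE s ∧ (i, false) ∉ s} =
          Set.ncard {s : Set (Fin v × Bool) |
            @IsLowerSet (Fin v × Bool) (kww v).toLE s} := by
        rw [← Set.ncard_union_eq _ (Set.toFinite _) (Set.toFinite _)]
        · congr 1
          ext s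
          simp only [Set.mem_union, Set.mem_ofPred_eq]
          tauto
        · rw [Set.disjoint_left]
          rintro s ⟨_, h1⟩ ⟨_, h2⟩
          exact h2 h1
      omega

end Pool.Agent.CrownF
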