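import Pool.Agent.FewCovers.Cut
import Pool.Agent.CrownF.Nest

/-!
MP_a217f7_co.  Posets with tight cuts: windows of length one half.
-/

set_option autoImplicit false

namespace Pool.Agent.CrownF

open Pool.Agent.FewCovers

/-- Tight cuts: every lower set `X` (not empty, not everything) has an element `x`, and there is an
element `y` outside `X`, such that everything below `y` is below everything above `x`. -/
def TightCuts (P : Type) [PartialOrder P] : Prop :=
  ∀ X : Set P, IsLowerSet X → X.Nonempty → X ≠ Set.univ →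
    ∃ x ∈ X, ∃ y ∉ X, ∀ d, d < y → ∀ u, x < u → d < u

/-- `P` contains an induced crown: `x i < y j` if and only if `j = i` or `j = i + 1` (indices
modulo `n + 3`), and no other comparabilities. -/
def HasCrown (P : Type) [PartialOrder P] : Prop :=
  ∃ (n : ℕ) (x y : Fin (n + 3) → P),
    (∀ i j, x i ≤ y j ↔ (j = i ∨ j = i + 1)) ∧
    (∀ i j, x i ≤ x j → i = j) ∧ (∀ i j, y i ≤ y j → i = j) ∧ (∀ i j, ¬ y i ≤ x j)

variable {P : Type} [Fintype P] [PartialOrder P]

/-- The ideals which contain everything below `y`. -/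
theorem below_bound (y : P) :
    cnt (fun s : Set P => IsLowerSet s ∧ ∀ d, d < y → d ∈ s) ≤ 2 * NX y := by
  classical
  rw [cnt_split (fun s : Set P => IsLowerSet s ∧ ∀ d, d < y → d ∈ s) (fun s => y ∈ s)]
  have h1 : cnt (fun s : Set P => (IsLowerSet s ∧ ∀ d, d < y → d ∈ s) ∧ y ∈ s) ≤ NX y :=
    cnt_mono (fun s hs => ⟨hs.1.1, hs.2⟩)
  have h2 : cnt (fun s : Set P => (IsLowerSet s ∧ ∀ d, d < y → d ∈ s) ∧ ¬ y ∈ s) ≤ NX y := by
    apply cnt_le_of_inj (fun s => insert y s)
    · rintro s ⟨⟨h1, h2⟩, h3⟩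
      refine ⟨?_, Set.mem_insert _ _⟩
      intro a b hba ha
      rcases Set.mem_insert_iff.1 ha with rfl | ha
      · rcases hba.eq_or_lt with rfl | hlt
        · exact Set.mem_insert _ _
        · exact Set.mem_insert_of_mem _ (h2 b hlt)
      · exact Set.mem_insert_of_mem _ (h1 hba ha)
    · rintro s t ⟨_, h3⟩ ⟨_, h3'⟩ h
      ext z
      by_cases hz : z = y
      · subst hz; simp [h3, h3']
      · have := Set.ext_iff.1 h z
        simpa [hz] using this
  linarith

/-- The ideals which contain nothing above `x`. -/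
theorem above_bound (x : P) :
    cnt (fun s : Set P => IsLowerSet s ∧ ∀ u, x < u → u ∉ s) ≤ 2 * (NI P - NX x) := by
  classical
  have h0 : NI P - NX x = cnt (fun s : Set P => IsLowerSet s ∧ ¬ x ∈ s) := by
    have := cnt_split (fun s : Set P => IsLowerSet s) (fun s => x ∈ s)
    unfold NI NX
    linarith
  rw [cnt_split (fun s : Set P => IsLowerSet s ∧ ∀ u, x < u → u ∉ s) (fun s => x ∈ s), h0]
  have h1 : cnt (fun s : Set P => (IsLowerSet s ∧ ∀ u, x < u → u ∉ s) ∧ ¬ x ∈ s) ≤
      cnt (fun s : Set P => IsLowerSet s ∧ ¬ x ∈ s) :=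
    cnt_mono (fun s hs => ⟨hs.1.1, hs.2⟩)
  have h2 : cnt (fun s : Set P => (IsLowerSet s ∧ ∀ u, x < u → u ∉ s) ∧ x ∈ s) ≤
      cnt (fun s : Set P => IsLowerSet s ∧ ¬ x ∈ s) := by
    apply cnt_le_of_inj (fun s => s \ {x})
    · rintro s ⟨⟨h1, h2⟩, h3⟩
      refine ⟨?_, by simp⟩
      rintro a b hba ⟨ha1, ha2⟩
      refine ⟨h1 hba ha1, ?_⟩
      intro hb
      have hbx : b = x := hb
      subst hbx
      rcases hba.eq_or_lt with h | h
      · exact ha2 h.symm
      · exact h2 a h ha1
    · rintro s t ⟨_, h3⟩ ⟨_, h3'⟩ h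
      ext z
      by_cases hz : z = x
      · subst hz; simp [h3, h3']
      · have := Set.ext_iff.1 h z
        simpa [hz] using this
  linarith

/-- Posets with tight cuts: for every real `A` in `[1/2, N/2]` some element lies in at least `A`
and at most `A + (N - 1)/2` of the `N` ideals. -/
theorem window [Nonempty P] (hP : TightCuts P) (A : ℝ) (h0 : 1 / 2 ≤ A) (h1 : A ≤ NI P / 2) :
    ∃ x : P, A ≤ NX x ∧ NX x ≤ A + (NI P - 1) / 2 := by
  classical
  by_contra hcon
  push Not at hcon
  have hN := NI_pos P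
  set X : Set P := {x | A + (NI P - 1) / 2 < NX x} with hX
  have hmono : ∀ a b : P, a ≤ b → NX b ≤ NX a := by
    intro a b hab
    exact cnt_mono (fun s hs => ⟨hs.1, hs.1 hab hs.2⟩)
  have hXl : IsLowerSet X := by
    intro a b hba ha
    exact lt_of_lt_of_le ha (hmono b a hba)
  have hnot : ∀ y, y ∉ X → NX y < A := by
    intro y hy
    by_contra h
    push Not at h
    exact hy (hcon y h)
  have hXne : X.Nonempty := by
    obtain ⟨m, -, hm⟩ := (Set.toFinite (Set.univ : Set P)).exists_le_minimal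
      (Set.mem_univ (Classical.arbitrary P))
    refine ⟨m, ?_⟩
    by_contra hmX
    have h2 := hnot m hmX
    have h3 := below_bound m
    have h4 : cnt (fun s : Set P => IsLowerSet s ∧ ∀ d, d < m → d ∈ s) = NI P := by
      apply cnt_congr
      intro s
      constructor
      · intro h; exact h.1
      · intro h
        exact ⟨h, fun d hd => absurd (hm.2 (Set.mem_univ d) hd.le) (not_le_of_gt hd)⟩
    rw [h4] at h3
    linarith
  have hXuniv : X ≠ Set.univ := by
    intro hXu
    obtain ⟨m, -, hm⟩ := (Set.toFinite (Set.univ : Set P)).exists_le_maximal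
      (Set.mem_univ (Classical.arbitrary P))
    have hmX : m ∈ X := by rw [hXu]; exact Set.mem_univ _
    have h2 : A + (NI P - 1) / 2 < NX m := hmX
    have h3 := above_bound m
    have h4 : cnt (fun s : Set P => IsLowerSet s ∧ ∀ u, m < u → u ∉ s) = NI P := by
      apply cnt_congr
      intro s
      constructor
      · intro h; exact h.1
      · intro h
        exact ⟨h, fun d hd => absurd (hm.2 (Set.mem_univ d) hd.le) (not_le_of_gt hd)⟩
    rw [h4] at h3
    linarith
  obtain ⟨x, hx, y, hy, htight⟩ := hP X hXl hXne hXuniv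
  have hxx : A + (NI P - 1) / 2 < NX x := hx
  have hyy := hnot y hy
  have h3 := below_bound y
  have h4 := above_bound x
  have h5 : NI P + 1 ≤ cnt (fun s : Set P => IsLowerSet s ∧ ∀ d, d < y → d ∈ s) +
      cnt (fun s : Set P => IsLowerSet s ∧ ∀ u, x < u → u ∉ s) := by
    unfold NI
    rw [cnt_split (fun s : Set P => IsLowerSet s) (fun s => ∀ d, d < y → d ∈ s),
      cnt_split (fun s : Set P => IsLowerSet s ∧ ∀ u, x < u → u ∉ s) (fun s => ∀ d, d < y → d ∈ s)]
    have h6 : cnt (fun s : Set P => IsLowerSet s ∧ ¬ ∀ d, d < y → d ∈ s) ≤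
        cnt (fun s : Set P => (IsLowerSet s ∧ ∀ u, x < u → u ∉ s) ∧ ¬ ∀ d, d < y → d ∈ s) := by
      apply cnt_mono
      rintro s ⟨hs, hd⟩
      refine ⟨⟨hs, ?_⟩, hd⟩
      intro u hu hus
      apply hd
      intro d hdy
      exact hs (htight d hdy u hu).le hus
    have h7 : (1 : ℝ) ≤
        cnt (fun s : Set P => (IsLowerSet s ∧ ∀ u, x < u → u ∉ s) ∧ ∀ d, d < y → d ∈ s) := by
      have h8 : (IsLowerSet (Set.Iio y) ∧ ∀ u, x < u → u ∉ Set.Iio y) ∧
          ∀ d, d < y → d ∈ Set.Iio y := by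
        refine ⟨⟨isLowerSet_Iio y, ?_⟩, fun d hd => hd⟩
        intro u hu hud
        exact lt_irrefl u (htight u hud u hu)
      rw [cnt_eq]
      have h9 : 0 < Set.ncard {s : Set P |
          (IsLowerSet s ∧ ∀ u, x < u → u ∉ s) ∧ ∀ d, d < y → d ∈ s} :=
        (Set.ncard_pos (Set.toFinite _)).2 ⟨Set.Iio y, h8⟩
      exact_mod_cast h9
    linarith
  linarith

/-- Posets without crowns have tight cuts. -/
theorem tight_of_crownFree (hP : ¬ HasCrown P) : TightCuts P := by
  classical
  intro X hX hXne hXu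
  obtain ⟨x₀, hx₀⟩ := hXne
  obtain ⟨y₀, hy₀⟩ : ∃ y, y ∉ X := by
    by_contra h
    push Not at h
    exact hXu (Set.eq_univ_of_forall h)
  have i1 : Nonempty {x // x ∈ X} := ⟨⟨x₀, hx₀⟩⟩
  have i2 : Nonempty {y // y ∉ X} := ⟨⟨y₀, hy₀⟩⟩
  have hR : ¬ RelCrown (fun (x : {x // x ∈ X}) (y : {y // y ∉ X}) => (x : P) ≤ y) := by
    rintro ⟨n, x, y, hxy⟩
    apply hP
    have hfin : ∀ i : Fin (n + 3), i + 1 + 1 ≠ i ∧ i + 1 ≠ i ∧ i + 1 + 1 ≠ i + 1 := by
      intro i
      have e1 : ∀ j : Fin (n + 3), ((j + 1 : Fin (n + 3)) : ℕ) =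
          if (j : ℕ) = n + 2 then 0 else (j : ℕ) + 1 := by
        intro j
        rw [Fin.val_add_one]
        have : (j = Fin.last (n + 2)) ↔ (j : ℕ) = n + 2 := by
          rw [Fin.ext_iff]; rfl
        simp only [this]
      refine ⟨?_, ?_, ?_⟩ <;>
      · intro h
        have h2 := congrArg Fin.val h
        rw [e1] at h2
        try rw [e1] at h2
        have hi := i.2
        split_ifs at h2 <;> omega
    refine ⟨n, fun i => (x i : P), fun j => (y j : P), hxy, ?_, ?_, ?_⟩
    · intro i j hij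
      have h1 : (x i : P) ≤ y j := hij.trans ((hxy j j).2 (Or.inl rfl))
      have h2 : (x i : P) ≤ y (j + 1) := hij.trans ((hxy j (j + 1)).2 (Or.inr rfl))
      rcases (hxy i j).1 h1 with h3 | h3
      · exact h3.symm
      · rcases (hxy i (j + 1)).1 h2 with h4 | h4
        · exfalso
          rw [h3] at h4
          exact (hfin i).1 h4
        · exfalso
          rw [h3] at h4
          exact (hfin i).2.2 h4
    · intro i j hij
      -- y i ≤ y j
      have h1 : (x i : P) ≤ y j := ((hxy i i).2 (Or.inl rfl)).trans hij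
      rcases (hxy i j).1 h1 with h3 | h3
      · exact h3.symm
      · exfalso
        -- j = i + 1; use the other lower neighbour of y i
        obtain ⟨k, hk⟩ : ∃ k : Fin (n + 3), k + 1 = i := ⟨i - 1, sub_add_cancel i 1⟩
        have h2 : (x k : P) ≤ y j := ((hxy k i).2 (Or.inr hk.symm)).trans hij
        rcases (hxy k j).1 h2 with h4 | h4
        · rw [h3, ← hk] at h4
          exact (hfin k).1 h4
        · rw [h3, ← hk] at h4
          exact (hfin k).2.2 h4
    · intro i j hij
      exact (y i).2 (hX hij (x j).2)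
  obtain ⟨x, y, hxy⟩ := exists_pair hR
  -- maximal in X above x, minimal outside X below y
  obtain ⟨x', hxx', hx'⟩ := (Set.toFinite X).exists_le_maximal x.2
  obtain ⟨y', hyy', hy'⟩ := (Set.toFinite Xᶜ).exists_le_minimal (show (y : P) ∈ Xᶜ from y.2)
  refine ⟨x', hx'.1, y', hy'.1, ?_⟩
  intro d hd u hu
  have hdX : d ∈ X := by
    by_contra h
    have := hy'.2 (show d ∈ Xᶜ from h) hd.le
    exact absurd hd (not_lt_of_ge this)
  have huX : u ∉ X := by
    intro h
    have := hx'.2 h hu.le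
    exact absurd hu (not_lt_of_ge this)
  have h1 : d ≤ (y : P) := (hd.trans_le hyy').le
  have h2 : (x : P) ≤ u := hxx'.trans hu.le
  have h3 := hxy ⟨d, hdX⟩ ⟨u, huX⟩ h1 h2
  refine lt_of_le_of_ne h3 ?_
  intro h
  apply huX
  rw [← h]
  exact hdX

end Pool.Agent.CrownF
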